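import Pool.Agent.H777R2.IncTrans

/-! # Incompressible Sobolev homeomorphisms that are not limits of incompressible
diffeomorphisms or of incompressible piecewise affine homeomorphisms

For `n = 2` and every `1 ≤ p < 2` we construct a homeomorphism `f ∈ W^{1,p}` of the open square
with Jacobian determinant `1` almost everywhere which is not a `W^{1,p}` limit of incompressible
diffeomorphisms and not a `W^{1,p}` limit of incompressible piecewise affine homeomorphisms. -/

open Set Filter Topology MeasureTheory Metric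
open scoped ContDiff ENNReal

namespace Pool.Agent.Results.MP_69386a_an.NoIncompressibleApprox

/-- Euclidean `n`-space. -/
abbrev E (n : ℕ) := EuclideanSpace ℝ (Fin n)

/-- `D` is the weak (distributional) differential of `g` on the open set `Ω`. -/
structure IsWeakDiff {n : ℕ} (Ω : Set (E n)) (g : E n → E n) (D : E n → E n →L[ℝ] E n) :
    Prop where
  locInt : LocallyIntegrableOn g Ω volume
  locInt_diff : LocallyIntegrableOn D Ω volume
  integral_eq : ∀ φ : E n → ℝ, ContDiff ℝ ∞ φ → HasCompactSupport φ → tsupport φ ⊆ Ω →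
    ∀ v : E n, ∫ x in Ω, (fderiv ℝ φ x v) • g x = - ∫ x in Ω, φ x • D x v

/-- `g ∈ W^{1,p}(Ω, ℝⁿ)` with weak differential `D`. -/
structure InW1p {n : ℕ} (Ω : Set (E n)) (p : ℝ≥0∞) (g : E n → E n) (D : E n → E n →L[ℝ] E n) :
    Prop where
  memLp : MemLp g p (volume.restrict Ω)
  memLp_diff : MemLp D p (volume.restrict Ω)
  isWeakDiff : IsWeakDiff Ω g D

/-- `g` is a homeomorphism of `Ω` onto its image `g(Ω)`. -/
def IsHomeoOntoImage {n : ℕ} (Ω : Set (E n)) (g : E n → E n) : Prop :=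
  IsEmbedding (Ω.domRestrict g)

/-- `g` is an incompressible diffeomorphism of `Ω`: a `C^∞` diffeomorphism of `Ω` onto the open
set `g(Ω)` with `det Dg = 1` everywhere in `Ω`. -/
structure IsIncompressibleDiffeo {n : ℕ} (Ω : Set (E n)) (g : E n → E n) : Prop where
  contDiffOn : ContDiffOn ℝ ∞ g Ω
  injOn : InjOn g Ω
  isOpen_image : IsOpen (g '' Ω)
  contDiffOn_inv : ContDiffOn ℝ ∞ (Function.invFunOn g Ω) (g '' Ω)
  det_eq_one : ∀ x ∈ Ω, (fderiv ℝ g x).det = 1

/-- The closed simplex spanned by the vertices of `σ`. -/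
def cell {n : ℕ} (σ : Affine.Simplex ℝ (E n) n) : Set (E n) := convexHull ℝ (range σ.points)

/-- `g` is an incompressible piecewise affine homeomorphism of `Ω`: a homeomorphism of `Ω` onto
`g(Ω)` for which there is a countable, locally finite (in `Ω`) decomposition of `Ω` into
non-degenerate closed simplices with pairwise disjoint interiors such that `g` is affine with
determinant `1` on each simplex. -/
structure IsIncompressiblePAHomeo {n : ℕ} (Ω : Set (E n)) (g : E n → E n) : Prop where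
  isHomeoOntoImage : IsHomeoOntoImage Ω g
  exists_decomposition : ∃ (ι : Type) (σ : ι → Affine.Simplex ℝ (E n) n)
      (A : ι → E n →L[ℝ] E n) (b : ι → E n),
    Countable ι ∧
    (⋃ i, cell (σ i)) = Ω ∧
    (∀ x ∈ Ω, ∃ U ∈ 𝓝 x, {i | (cell (σ i) ∩ U).Nonempty}.Finite) ∧
    (∀ i j, i ≠ j → Disjoint (interior (cell (σ i))) (interior (cell (σ j)))) ∧
    ∀ i, (A i).det = 1 ∧ ∀ x ∈ cell (σ i), g x = A i x + b i

/-- `f` (with weak differential `Df`) is a limit in the norm of `W^{1,p}(Ω, ℝⁿ)` of maps from the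
class `𝒢`. -/
def Approximable {n : ℕ} (𝒢 : Set (E n) → (E n → E n) → Prop) (Ω : Set (E n)) (p : ℝ≥0∞)
    (f : E n → E n) (Df : E n → E n →L[ℝ] E n) : Prop :=
  ∃ (g : ℕ → E n → E n) (Dg : ℕ → E n → E n →L[ℝ] E n),
    (∀ k, 𝒢 Ω (g k)) ∧ (∀ k, InW1p Ω p (g k) (Dg k)) ∧
    Tendsto (fun k => eLpNorm (fun x => g k x - f x) p (volume.restrict Ω) +
      eLpNorm (fun x => Dg k x - Df x) p (volume.restrict Ω)) atTop (𝓝 0)

/-- The open square `(-1,1)²`. -/
def square : Set (E 2) := {x | ∀ i, |x i| < 1}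

/-! ### properties of the approximating classes -/

lemma IsWeakDiff.ibp {n : ℕ} {Ω : Set (E n)} {g : E n → E n} {D : E n → E n →L[ℝ] E n}
    (h : IsWeakDiff Ω g D) (φ : E n → ℝ) (hφ : ContDiff ℝ ∞ φ) (hc : HasCompactSupport φ)
    (hs : tsupport φ ⊆ Ω) (v : E n) :
    ∫ x, (fderiv ℝ φ x v) • g x = - ∫ x, φ x • D x v := by
  have h1 := h.integral_eq φ hφ hc hs v
  rw [setIntegral_eq_integral_of_forall_compl_eq_zero,
    setIntegral_eq_integral_of_forall_compl_eq_zero] at h1
  · exact h1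
  · intro x hx
    rw [image_eq_zero_of_notMem_tsupport fun h' => hx (hs h'), zero_smul]
  · intro x hx
    have : fderiv ℝ φ x = 0 := image_eq_zero_of_notMem_tsupport fun h' =>
      hx (hs (tsupport_fderiv_subset ℝ h'))
    rw [this]; simp

/-- the two properties of the approximating maps used in the argument -/
def Nice {n : ℕ} (Ω : Set (E n)) (D : E n → E n →L[ℝ] E n) : Prop :=
  (∀ᵐ x ∂(volume.restrict Ω), (D x).det = 1) ∧
    ∀ K ⊆ Ω, IsCompact K → ∃ C : ℝ, ∀ᵐ x ∂(volume.restrict K), ‖D x‖ ≤ C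

lemma nice_of_diffeo {n : ℕ} {Ω : Set (E n)} (hΩ : IsOpen Ω) {g : E n → E n}
    {D : E n → E n →L[ℝ] E n} (hg : IsIncompressibleDiffeo Ω g) (hD : IsWeakDiff Ω g D) :
    Nice Ω D := by
  have hg1 : ContDiffOn ℝ 1 g Ω := hg.contDiffOn.of_le (by simp)
  have h1 := H777R2.Inc.weak_unique (μ := volume) hΩ hD.locInt_diff
    (fun φ hφ hc hs v => hD.ibp φ hφ hc hs v) hg1
  refine ⟨?_, ?_⟩
  · rw [ae_restrict_iff' hΩ.measurableSet]
    filter_upwards [h1] with x hx hxΩ
    rw [hx hxΩ, hg.det_eq_one x hxΩ]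
  · intro K hK hKc
    have hcont : ContinuousOn (fderiv ℝ g) K :=
      (hg1.continuousOn_fderiv_of_isOpen hΩ le_rfl).mono hK
    obtain ⟨C, hC⟩ := hKc.exists_bound_of_continuousOn hcont
    refine ⟨C, ?_⟩
    rw [ae_restrict_iff' hKc.measurableSet]
    filter_upwards [h1] with x hx hxK
    rw [hx (hK hxK)]
    exact hC x hxK

lemma nice_of_pa {n : ℕ} {Ω : Set (E n)} (hΩ : IsOpen Ω) {g : E n → E n}
    {D : E n → E n →L[ℝ] E n} (hg : IsIncompressiblePAHomeo Ω g) (hD : IsWeakDiff Ω g D) :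
    Nice Ω D := by
  obtain ⟨ι, σ, A, b, hι, hU, hloc, -, hA⟩ := hg.exists_decomposition
  have hsub : ∀ i, cell (σ i) ⊆ Ω := fun i => by rw [← hU]; exact subset_iUnion (fun i => cell (σ i)) i
  have h1 : ∀ i, ∀ᵐ x : E n, x ∈ interior (cell (σ i)) → D x = A i := by
    intro i
    have hO : interior (cell (σ i)) ⊆ Ω := interior_subset.trans (hsub i)
    have haff : EqOn g (fun x => A i x + b i) (interior (cell (σ i))) := fun x hx =>
      (hA i).2 x (interior_subset hx)
    have hcd : ContDiffOn ℝ 1 g (interior (cell (σ i))) := by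
      have : ContDiffOn ℝ 1 (fun x => A i x + b i) (interior (cell (σ i))) :=
        ((A i).contDiff.add contDiff_const).contDiffOn
      exact this.congr haff
    have h2 := H777R2.Inc.weak_unique (μ := volume) isOpen_interior
      (hD.locInt_diff.mono_set hO)
      (fun φ hφ hc hs v => hD.ibp φ hφ hc (hs.trans hO) v) hcd
    filter_upwards [h2] with x hx hxi
    rw [hx hxi]
    have h3 : g =ᶠ[𝓝 x] fun x => A i x + b i :=
      haff.eventuallyEq_of_mem (isOpen_interior.mem_nhds hxi)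
    rw [h3.fderiv_eq]
    exact ((A i).hasFDerivAt.add_const (b i)).fderiv
  have h2 : ∀ᵐ x : E n, x ∈ Ω → ∃ i, x ∈ interior (cell (σ i)) := by
    have h3 : ∀ i, ∀ᵐ x : E n, x ∉ frontier (cell (σ i)) := by
      intro i
      have : volume (frontier (cell (σ i))) = 0 :=
        (convex_convexHull ℝ _).addHaar_frontier volume
      rw [ae_iff]; simpa using this
    filter_upwards [ae_all_iff.2 h3] with x hx hxΩ
    rw [← hU, mem_iUnion] at hxΩ
    obtain ⟨i, hi⟩ := hxΩ
    refine ⟨i, ?_⟩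
    by_contra hc
    exact hx i ⟨subset_closure hi, hc⟩
  refine ⟨?_, ?_⟩
  · rw [ae_restrict_iff' hΩ.measurableSet]
    filter_upwards [ae_all_iff.2 h1, h2] with x hx hx2 hxΩ
    obtain ⟨i, hi⟩ := hx2 hxΩ
    rw [hx i hi, (hA i).1]
  · intro K hK hKc
    have hfin : {i | (cell (σ i) ∩ K).Nonempty}.Finite := by
      choose! U hUn hUf using hloc
      obtain ⟨t, htK, hcov⟩ := hKc.elim_nhds_subcover U (fun x hx => hUn x (hK hx))
      apply (t.finite_toSet.biUnion (fun x hx => hUf x (hK (htK x hx)))).subset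
      rintro i ⟨y, hy1, hy2⟩
      obtain ⟨x, hx, hyx⟩ := mem_iUnion₂.1 (hcov hy2)
      exact mem_iUnion₂.2 ⟨x, hx, ⟨y, hy1, hyx⟩⟩
    refine ⟨∑ i ∈ hfin.toFinset, ‖A i‖, ?_⟩
    rw [ae_restrict_iff' hKc.measurableSet]
    filter_upwards [ae_all_iff.2 h1, h2] with x hx hx2 hxK
    obtain ⟨i, hi⟩ := hx2 (hK hxK)
    rw [hx i hi]
    apply Finset.single_le_sum (f := fun i => ‖A i‖) (fun i _ => norm_nonneg _)
    rw [Finite.mem_toFinset]
    exact ⟨x, interior_subset hi, hxK⟩

/-! ### the chart -/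

/-- the linear chart from the plane with the sup norm to Euclidean space -/
noncomputable def P : (ℝ × ℝ) ≃L[ℝ] E 2 :=
  LinearEquiv.toContinuousLinearEquiv
    { toFun := fun z => !₂[z.1, z.2]
      invFun := fun x => (x 0, x 1)
      map_add' := fun a b => by ext i; fin_cases i <;> simp
      map_smul' := fun c a => by ext i; fin_cases i <;> simp
      left_inv := fun z => by simp
      right_inv := fun x => by ext i; fin_cases i <;> simp }

lemma P_symm_apply (x : E 2) : P.symm x = (x 0, x 1) := rfl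

lemma mp_P : MeasurePreserving P volume volume :=
  (PiLp.volume_preserving_toLp (Fin 2)).comp (volume_preserving_finTwoArrow ℝ).symm

lemma square_eq : square = P.symm ⁻¹' (ball 0 1) := by
  ext x
  simp only [square, Set.mem_ofPred_eq, mem_preimage, mem_ball_zero_iff, P_symm_apply,
    H777R2.Inc.norm_lt_iff, Fin.forall_fin_two]

lemma square_preimage : P ⁻¹' square = ball 0 1 := by
  rw [square_eq, ← preimage_comp]
  have : (P.symm : E 2 → ℝ × ℝ) ∘ P = id := by ext x <;> simp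
  rw [this, preimage_id]

lemma isOpen_square : IsOpen square := by
  rw [square_eq]; exact isOpen_ball.preimage P.symm.continuous

/-- the counterexample -/
noncomputable def f : E 2 → E 2 := H777R2.Inc.tr P (H777R2.Inc.F 1)

/-- its differential -/
noncomputable def Df : E 2 → E 2 →L[ℝ] E 2 :=
  H777R2.Inc.trD P (fderiv ℝ (H777R2.Inc.F 1))

lemma isEmbedding_closedBall :
    IsEmbedding (fun x : closedBall (0 : ℝ × ℝ) 1 => H777R2.Inc.F 1 (x : ℝ × ℝ)) := by
  have : CompactSpace (closedBall (0 : ℝ × ℝ) 1) :=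
    isCompact_iff_compactSpace.1 (isCompact_closedBall _ _)
  have hinj : Function.Injective
      (fun x : closedBall (0 : ℝ × ℝ) 1 => H777R2.Inc.F 1 (x : ℝ × ℝ)) := by
    intro x y h
    exact Subtype.ext (H777R2.Inc.F_injOn (by norm_num) x.2 y.2 h)
  have hcont : Continuous
      (fun x : closedBall (0 : ℝ × ℝ) 1 => H777R2.Inc.F 1 (x : ℝ × ℝ)) :=
    (H777R2.Inc.continuous_F (by norm_num)).comp continuous_subtype_val
  exact (hcont.isClosedEmbedding hinj).isEmbedding

lemma isEmbedding_chart (h2 : ∀ x : square, P.symm (x : E 2) ∈ closedBall (0 : ℝ × ℝ) 1) :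
    IsEmbedding (fun x : square => (⟨P.symm (x : E 2), h2 x⟩ : closedBall (0 : ℝ × ℝ) 1)) := by
  have h : IsEmbedding (fun x : square => P.symm (x : E 2)) :=
    P.symm.toHomeomorph.isEmbedding.comp IsEmbedding.subtypeVal
  exact h.codRestrict _ h2

lemma isHomeo_f : IsHomeoOntoImage square f := by
  have h2 : ∀ x : square, P.symm (x : E 2) ∈ closedBall (0 : ℝ × ℝ) 1 := by
    intro x
    have h0 : (x : E 2) ∈ P.symm ⁻¹' (ball (0 : ℝ × ℝ) 1) := square_eq.subset x.2
    exact ball_subset_closedBall h0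
  have h3 := P.toHomeomorph.isEmbedding.comp
    (isEmbedding_closedBall.comp (isEmbedding_chart h2))
  exact h3

lemma isOpen_image_f : IsOpen (f '' square) := by
  have h1 : f '' square = P '' (H777R2.Inc.F 1 '' ball 0 1) := by
    rw [← square_preimage]
    ext y
    constructor
    · rintro ⟨x, hx, rfl⟩
      refine ⟨H777R2.Inc.F 1 (P.symm x), ⟨P.symm x, by simpa using hx, rfl⟩, rfl⟩
    · rintro ⟨_, ⟨x, hx, rfl⟩, rfl⟩
      exact ⟨P x, hx, by simp [f, H777R2.Inc.tr]⟩
  rw [h1, H777R2.Inc.image_F (by norm_num)]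
  exact P.toHomeomorph.isOpenMap _ isOpen_ball

lemma det_Df : ∀ᵐ x ∂(volume.restrict square), (Df x).det = 1 := by
  rw [square_eq]
  filter_upwards [H777R2.Inc.ae_tr P mp_P measurableSet_ball
    (H777R2.Inc.ae_good (μ := 1) (by norm_num))] with x hx
  rw [Df, H777R2.Inc.det_trD]
  exact hx.1

lemma isFiniteMeasure_ball : IsFiniteMeasure ((volume : Measure (ℝ × ℝ)).restrict (ball 0 1)) :=
  ⟨by rw [Measure.restrict_apply_univ, H777R2.Inc.volume_ball_X]; exact ENNReal.ofNat_lt_top⟩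

lemma inW1p_f {p : ℝ} (hp1 : 1 ≤ p) (hp : p < 2) : InW1p square (ENNReal.ofReal p) f Df where
  memLp := by
    have hfin := isFiniteMeasure_ball
    have h1 : MemLp (H777R2.Inc.F 1) (ENNReal.ofReal p) (volume.restrict (ball 0 1)) := by
      apply MemLp.of_bound (H777R2.Inc.continuous_F (by norm_num)).aestronglyMeasurable
        (H777R2.Inc.T 1)
      rw [ae_restrict_iff' measurableSet_ball]
      filter_upwards with x hx
      exact H777R2.Inc.norm_F_le (by norm_num) (by simpa using (mem_ball_zero_iff.1 hx).le)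
    rw [square_eq]
    exact H777R2.Inc.memLp_tr P mp_P measurableSet_ball (P : (ℝ × ℝ) →L[ℝ] E 2) h1
  memLp_diff := by
    have h1 : MemLp (fderiv ℝ (H777R2.Inc.F 1)) (ENNReal.ofReal p)
        (volume.restrict (ball 0 1)) := by
      refine ⟨(measurable_fderiv ℝ _).aestronglyMeasurable, ?_⟩
      rw [eLpNorm_lt_top_iff_lintegral_rpow_enorm_lt_top
        (by rw [ne_eq, ENNReal.ofReal_eq_zero]; linarith) ENNReal.ofReal_ne_top,
        ENNReal.toReal_ofReal (by linarith)]
      exact (H777R2.Inc.lint_F_le hp1 hp (by norm_num)).trans_lt ENNReal.ofReal_lt_top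
    rw [square_eq]
    exact H777R2.Inc.memLp_tr P mp_P measurableSet_ball
      ((P.arrowCongr P : ((ℝ × ℝ) →L[ℝ] (ℝ × ℝ)) ≃L[ℝ] (E 2 →L[ℝ] E 2)) :
        ((ℝ × ℝ) →L[ℝ] (ℝ × ℝ)) →L[ℝ] (E 2 →L[ℝ] E 2)) h1
  isWeakDiff := by
    have h := H777R2.Inc.WD_F (μ := 1) (by norm_num)
    rw [square_eq]
    exact
      { locInt := H777R2.Inc.locInt_tr P mp_P (P : (ℝ × ℝ) →L[ℝ] E 2) h.locG
        locInt_diff := H777R2.Inc.locInt_tr P mp_P
          ((P.arrowCongr P : ((ℝ × ℝ) →L[ℝ] (ℝ × ℝ)) ≃L[ℝ] (E 2 →L[ℝ] E 2)) :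
            ((ℝ × ℝ) →L[ℝ] (ℝ × ℝ)) →L[ℝ] (E 2 →L[ℝ] E 2)) h.locD
        integral_eq := H777R2.Inc.ibp_tr P mp_P h.locG h.locD
          (fun φ hφ hc hs v => h.ibp φ ⟨hφ, hc, hs⟩ v) }

/-! ### non-approximability -/

/-- the lower bound for a single nice map -/
lemma gap : ∃ δ : ℝ≥0∞, 0 < δ ∧ ∀ (g : E 2 → E 2) (D : E 2 → E 2 →L[ℝ] E 2) (p : ℝ≥0∞), 1 ≤ p →
    InW1p square p g D → Nice square D →
    δ ≤ (∫⁻ x in square, ‖g x - f x‖ₑ) + ∫⁻ x in square, ‖D x - Df x‖ₑ := by
  obtain ⟨ε, hε, hna⟩ := H777R2.Inc.non_approx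
  set L₁ : E 2 →L[ℝ] (ℝ × ℝ) := (P.symm : E 2 →L[ℝ] (ℝ × ℝ)) with hL₁
  set L₂ : (E 2 →L[ℝ] E 2) →L[ℝ] ((ℝ × ℝ) →L[ℝ] (ℝ × ℝ)) :=
    ((P.symm.arrowCongr P.symm : (E 2 →L[ℝ] E 2) ≃L[ℝ] ((ℝ × ℝ) →L[ℝ] (ℝ × ℝ))) :
      (E 2 →L[ℝ] E 2) →L[ℝ] ((ℝ × ℝ) →L[ℝ] (ℝ × ℝ))) with hL₂
  set c : ℝ := ‖L₁‖ + ‖L₂‖ + 1 with hc
  have hc0 : 0 < c := by positivity
  refine ⟨ENNReal.ofReal (ε / c), by rw [ENNReal.ofReal_pos]; positivity, ?_⟩
  intro g D p hp hg hN
  have mpS : MeasurePreserving P.symm volume volume := mp_P.symm P.toHomeomorph.toMeasurableEquiv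
  have hpre : P.symm.symm ⁻¹' square = ball (0 : ℝ × ℝ) 1 := square_preimage
  have hms : MeasurableSet square := isOpen_square.measurableSet
  have hfin := isFiniteMeasure_ball
  set G := H777R2.Inc.tr P.symm g with hG
  set D' := H777R2.Inc.trD P.symm D with hD'
  have hW : H777R2.Inc.WD (ball 0 1) G D' :=
    { locG := by
        have := H777R2.Inc.locInt_tr P.symm mpS L₁ hg.isWeakDiff.locInt
        rwa [hpre] at this
      locD := by
        have := H777R2.Inc.locInt_tr P.symm mpS L₂ hg.isWeakDiff.locInt_diff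
        rwa [hpre] at this
      ibp := fun φ hφ v => by
        have := H777R2.Inc.ibp_tr P.symm mpS hg.isWeakDiff.locInt hg.isWeakDiff.locInt_diff
          hg.isWeakDiff.integral_eq φ hφ.smooth hφ.cpt (by rw [hpre]; exact hφ.supp) v
        rwa [hpre] at this }
  have hLB : H777R2.Inc.LB (ball 0 1) D' := by
    intro K hK hKc
    have hK1 : P '' K ⊆ square := by
      rintro _ ⟨x, hx, rfl⟩
      have := hK hx
      rw [← square_preimage] at this
      exact this
    have hK2 : IsCompact (P '' K) := hKc.image P.continuous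
    obtain ⟨C, hC⟩ := hN.2 _ hK1 hK2
    have h1 := H777R2.Inc.ae_tr P.symm mpS hK2.measurableSet hC
    have h2 : P.symm.symm ⁻¹' (P '' K) = K := preimage_image_eq K P.injective
    rw [h2] at h1
    refine ⟨‖L₂‖ * C, ?_⟩
    filter_upwards [h1] with x hx
    calc ‖D' x‖ ≤ ‖L₂‖ * ‖D (P.symm.symm x)‖ := L₂.le_opNorm _
      _ ≤ ‖L₂‖ * C := by gcongr
  have hGm : AEStronglyMeasurable G (volume.restrict (ball 0 1)) := by
    have := H777R2.Inc.memLp_tr P.symm mpS hms L₁ hg.memLp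
    rw [hpre] at this
    exact this.aestronglyMeasurable
  have hDi : IntegrableOn D' (ball 0 1) := by
    have := H777R2.Inc.memLp_tr P.symm mpS hms L₂ hg.memLp_diff
    rw [hpre] at this
    exact this.integrable hp
  have hdet : ∀ᵐ x ∂(volume.restrict (ball (0 : ℝ × ℝ) 1)), (D' x).det = 1 := by
    have h1 := H777R2.Inc.ae_tr P.symm mpS hms hN.1
    rw [hpre] at h1
    filter_upwards [h1] with x hx
    rw [hD', H777R2.Inc.det_trD]; exact hx
  have h1 := hna G D' hW hLB hGm hDi hdet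
  have h2 : (∫⁻ x in ball (0 : ℝ × ℝ) 1, ‖G x - H777R2.Inc.F 1 x‖ₑ) ≤
      ENNReal.ofReal c * ∫⁻ x in square, ‖g x - f x‖ₑ := by
    have h3 := H777R2.Inc.lint_tr P.symm mpS (U := square) (fun x => ‖g x - f x‖ₑ)
    rw [hpre] at h3
    rw [← h3, ← lintegral_const_mul' _ _ ENNReal.ofReal_ne_top]
    apply lintegral_mono fun x => ?_
    have h4 : G x - H777R2.Inc.F 1 x = L₁ (g (P x) - f (P x)) := by
      simp [hG, hL₁, H777R2.Inc.tr, f]
    rw [h4, ← ofReal_norm, ← ofReal_norm, ← ENNReal.ofReal_mul hc0.le]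
    apply ENNReal.ofReal_le_ofReal
    calc ‖L₁ (g (P x) - f (P x))‖ ≤ ‖L₁‖ * ‖g (P x) - f (P x)‖ := L₁.le_opNorm _
      _ ≤ c * ‖g (P x) - f (P x)‖ := by
          gcongr
          have := norm_nonneg L₂
          linarith
  have h3 : (∫⁻ x in ball (0 : ℝ × ℝ) 1, ‖D' x - fderiv ℝ (H777R2.Inc.F 1) x‖ₑ) ≤
      ENNReal.ofReal c * ∫⁻ x in square, ‖D x - Df x‖ₑ := by
    have h3 := H777R2.Inc.lint_tr P.symm mpS (U := square) (fun x => ‖D x - Df x‖ₑ)
    rw [hpre] at h3
    rw [← h3, ← lintegral_const_mul' _ _ ENNReal.ofReal_ne_top]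
    apply lintegral_mono fun x => ?_
    have h4 : D' x - fderiv ℝ (H777R2.Inc.F 1) x = L₂ (D (P x) - Df (P x)) := by
      have h5 : L₂ (Df (P x)) = fderiv ℝ (H777R2.Inc.F 1) x := by
        ext <;> simp [hL₂, Df, H777R2.Inc.trD]
      rw [map_sub, h5]; rfl
    rw [h4, ← ofReal_norm, ← ofReal_norm, ← ENNReal.ofReal_mul hc0.le]
    apply ENNReal.ofReal_le_ofReal
    calc ‖L₂ (D (P x) - Df (P x))‖ ≤ ‖L₂‖ * ‖D (P x) - Df (P x)‖ := L₂.le_opNorm _
      _ ≤ c * ‖D (P x) - Df (P x)‖ := by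
          gcongr
          have := norm_nonneg L₁
          linarith
  rw [ENNReal.ofReal_div_of_pos hc0]
  apply ENNReal.div_le_of_le_mul'
  rw [mul_add]
  exact h1.trans (add_le_add h2 h3)

lemma not_approximable {𝒢 : Set (E 2) → (E 2 → E 2) → Prop}
    (h𝒢 : ∀ g D, 𝒢 square g → IsWeakDiff square g D → Nice square D) {p : ℝ≥0∞} (hp : 1 ≤ p)
    (hfp : InW1p square p f Df) : ¬ Approximable 𝒢 square p f Df := by
  rintro ⟨g, Dg, hg, hW, hlim⟩
  obtain ⟨δ, hδ, hgap⟩ := gap
  have hfin : volume square < ⊤ := by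
    have h1 : volume square = volume (ball (0 : ℝ × ℝ) 1) := by
      rw [← square_preimage]
      exact (mp_P.measure_preimage isOpen_square.measurableSet.nullMeasurableSet).symm
    rw [h1, H777R2.Inc.volume_ball_X]; exact ENNReal.ofNat_lt_top
  set V := (volume.restrict square) (univ : Set (E 2)) ^ (1 / (1 : ℝ≥0∞).toReal - 1 / p.toReal)
    with hV
  have hVtop : V ≠ ⊤ := by
    rw [hV, Measure.restrict_apply_univ]
    apply ENNReal.rpow_ne_top_of_nonneg _ hfin.ne
    rw [ENNReal.toReal_one, div_one, sub_nonneg]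
    rcases eq_or_ne p ⊤ with rfl | hpt
    · simp
    · have : 1 ≤ p.toReal := by
        rw [← ENNReal.toReal_one]; exact (ENNReal.toReal_le_toReal (by simp) hpt).2 hp
      rw [div_le_one (by linarith)]; exact this
  have hb : ∀ k, δ ≤ (eLpNorm (fun x => g k x - f x) p (volume.restrict square) +
      eLpNorm (fun x => Dg k x - Df x) p (volume.restrict square)) * V := by
    intro k
    refine (hgap (g k) (Dg k) p hp (hW k) (h𝒢 _ _ (hg k) (hW k).isWeakDiff)).trans ?_
    have h1 := eLpNorm_le_eLpNorm_mul_rpow_measure_univ hp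
      ((hW k).memLp.aestronglyMeasurable.sub hfp.memLp.aestronglyMeasurable)
    have h2 := eLpNorm_le_eLpNorm_mul_rpow_measure_univ hp
      ((hW k).memLp_diff.aestronglyMeasurable.sub hfp.memLp_diff.aestronglyMeasurable)
    rw [eLpNorm_one_eq_lintegral_enorm] at h1 h2
    rw [add_mul]
    exact add_le_add h1 h2
  have h3 : Tendsto (fun k => (eLpNorm (fun x => g k x - f x) p (volume.restrict square) +
      eLpNorm (fun x => Dg k x - Df x) p (volume.restrict square)) * V) atTop (𝓝 (0 * V)) :=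
    ENNReal.Tendsto.mul_const hlim (Or.inr hVtop)
  rw [zero_mul] at h3
  have h4 := ge_of_tendsto' h3 hb
  exact absurd h4 (not_le.2 hδ)

/-- **Main theorem.** There is a homeomorphism `f` of the open square `(-1,1)²` onto an open
subset of the plane, with weak differential `Df`, such that `det Df = 1` almost everywhere and, for
every `1 ≤ p < 2`, `f ∈ W^{1,p}` but `f` is neither a `W^{1,p}` limit of incompressible
diffeomorphisms nor a `W^{1,p}` limit of incompressible piecewise affine homeomorphisms. -/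
theorem result : ∃ (f : E 2 → E 2) (Df : E 2 → E 2 →L[ℝ] E 2),
    IsHomeoOntoImage square f ∧ IsOpen (f '' square) ∧
    (∀ᵐ x ∂(volume.restrict square), (Df x).det = 1) ∧
    ∀ p : ℝ, 1 ≤ p → p < 2 →
      InW1p square (ENNReal.ofReal p) f Df ∧
      ¬ Approximable IsIncompressibleDiffeo square (ENNReal.ofReal p) f Df ∧
      ¬ Approximable IsIncompressiblePAHomeo square (ENNReal.ofReal p) f Df := by
  refine ⟨f, Df, isHomeo_f, isOpen_image_f, det_Df, fun p hp1 hp2 => ?_⟩
  have h1 := inW1p_f hp1 hp2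
  have h2 : 1 ≤ ENNReal.ofReal p := ENNReal.one_le_ofReal.2 hp1
  exact ⟨h1, not_approximable (fun g D => nice_of_diffeo isOpen_square) h2 h1,
    not_approximable (fun g D => nice_of_pa isOpen_square) h2 h1⟩

end Pool.Agent.Results.MP_69386a_an.NoIncompressibleApprox
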